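import Pool.Agent.helper4.QX.SpecD
import Pool.Agent.helper62.QU.INV
import Pool.Agent.helper91.QU.DOB
import Pool.Agent.helper82.QU.TR3

/-! Project QX (MP_07c750_an), row DSC: discretisation of a kernel operator by cells. -/

set_option autoImplicit false

open scoped MatrixGroups ContDiff Topology UpperHalfPlane
open UpperHalfPlane MeasureTheory ProbabilityTheory Filter Set Polynomial
open Pool.Agent.QU Pool.Agent.RP

namespace Pool.Agent.QX

section idx

variable {Γ : Subgroup SL(2, ℝ)} {F : Set ℍ} {k : ℕ} {c : Fin k → Set ℍ}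

private theorem DSC_adj (a : MonoidAlgebra ℂ Γ) (x : Γ) :
    (adj a).coeff x = star (a.coeff x⁻¹) := by
  classical
  unfold adj
  rw [MonoidAlgebra.coeff_sum, Finsupp.finsetSum_apply]
  simp only [MonoidAlgebra.coeff_single, Finsupp.single_apply]
  by_cases h : x⁻¹ ∈ a.coeff.support
  · rw [Finset.sum_eq_single_of_mem x⁻¹ h]
    · rw [if_pos (inv_inv x)]
    · intro γ _ hγ
      rw [if_neg]
      intro h'
      apply hγ
      rw [← h', inv_inv]
  · rw [Finset.sum_eq_zero]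
    · rw [Finsupp.notMem_support_iff.1 h, star_zero]
    · intro γ hγ
      rw [if_neg]
      intro h'
      apply h
      rw [← h', inv_inv]
      exact hγ

private theorem DSC_idx (hF : NiceDom Γ F) (hcU : (⋃ i, c i) = F)
    (hcd : ∀ i j, i ≠ j → Disjoint (c i) (c j)) :
    ∃ idx : ℍ → Γ × Fin k, (∀ z, (idx z).1 • z ∈ c (idx z).2) ∧
      ∀ (z : ℍ) (p : Γ × Fin k), p.1 • z ∈ c p.2 → idx z = p := by
  have h : ∀ z : ℍ, ∃ q : Γ × Fin k, q.1 • z ∈ c q.2 ∧
      ∀ p : Γ × Fin k, p.1 • z ∈ c p.2 → q = p := by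
    intro z
    obtain ⟨γ, hγ, hu⟩ := hF.uniq z
    have h1 : γ • z ∈ ⋃ i, c i := by rw [hcU]; exact hγ
    obtain ⟨i, hi⟩ := mem_iUnion.1 h1
    refine ⟨(γ, i), hi, ?_⟩
    rintro ⟨δ, j⟩ hj
    have h2 : δ • z ∈ F := by rw [← hcU]; exact mem_iUnion.2 ⟨j, hj⟩
    have h3 : δ = γ := hu δ h2
    subst h3
    by_cases hij : j = i
    · rw [hij]
    · exact absurd hi ((Set.disjoint_left.1 (hcd j i hij)) hj)
  choose idx h1 h2 using h
  exact ⟨idx, h1, h2⟩

variable {idx : ℍ → Γ × Fin k} (h1 : ∀ z, (idx z).1 • z ∈ c (idx z).2)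
  (h2 : ∀ (z : ℍ) (p : Γ × Fin k), p.1 • z ∈ c p.2 → idx z = p)

include h1 h2 in
private theorem DSC_idx_smul (γ : Γ) (z : ℍ) : idx (γ • z) = ((idx z).1 * γ⁻¹, (idx z).2) := by
  apply h2
  change ((idx z).1 * γ⁻¹) • γ • z ∈ c (idx z).2
  rw [mul_smul, inv_smul_smul]
  exact h1 z

include h2 in
private theorem DSC_idx_one {i : Fin k} {z : ℍ} (hz : z ∈ c i) : idx z = (1, i) := by
  apply h2
  change (1 : Γ) • z ∈ c i
  rw [one_smul]
  exact hz

include h1 h2 in
private theorem DSC_pre (p : Γ × Fin k) : idx ⁻¹' {p} = (fun z : ℍ => p.1 • z) ⁻¹' c p.2 := by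
  ext z
  constructor
  · intro h
    have h' : idx z = p := h
    rw [← h']
    exact h1 z
  · intro h
    exact h2 z p h

include h1 h2 in
private theorem DSC_sm [Countable Γ] (hcm : ∀ i, MeasurableSet (c i)) {E : Type}
    [TopologicalSpace E] (u : Γ × Fin k → E) : StronglyMeasurable fun z => u (idx z) := by
  let _ : MeasurableSpace (Γ × Fin k) := ⊤
  have h3 : Measurable idx := by
    refine measurable_to_countable' fun p => ?_
    rw [DSC_pre h1 h2]
    exact (TR3_smul_cont p.1).measurable (hcm p.2)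
  exact (StronglyMeasurable.of_discrete (f := u)).comp_measurable h3

end idx

section form

variable {Γ : Subgroup SL(2, ℝ)} {F : Set ℍ} {a : ℍ → ℍ → ℝ} {k : ℕ} {c : Fin k → Set ℍ}

private theorem DSC_acont (ha : PKer Γ a) (γ : Γ) :
    Continuous (Function.uncurry fun z w : ℍ => a z (γ • w)) :=
  ha.cont.comp (continuous_fst.prodMk ((TR3_smul_cont γ).comp continuous_snd))

private theorem DSC_csup (ha : PKer Γ a) (z : ℍ) : Integrable (fun w => a z w) (volume : Measure ℍ) := by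
  have hac : Continuous fun w => a z w := ha.cont.comp (Continuous.prodMk_right z)
  obtain ⟨R, hR⟩ := ha.prop
  refine hac.integrable_of_hasCompactSupport ?_
  refine HasCompactSupport.intro (isCompact_closedBall z R) fun w hw => ?_
  by_contra hne
  apply hw
  rw [Metric.mem_closedBall, dist_comm]
  exact hR z w hne

/-- the form of a section constant on the cells -/
private theorem DSC_form (hfd : IsFundamentalDomain Γ F (volume : Measure ℍ)) (hct : Countable Γ)
    (hinv : SMulInvariantMeasure Γ ℍ (volume : Measure ℍ)) (ha : PKer Γ a) (S : Finset Γ)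
    (hS : ∀ (γ : Γ) (z w : ℍ), z ∈ F → w ∈ F → a z (γ • w) ≠ 0 → γ ∈ S)
    {K : Set ℍ} (hK : IsCompact K) (hFK : F ⊆ K) (hcm : ∀ i, MeasurableSet (c i))
    (hcU : (⋃ i, c i) = F) (hcd : ∀ i j, i ≠ j → Disjoint (c i) (c j))
    {V : Type} [NormedAddCommGroup V] [InnerProductSpace ℂ V] [CompleteSpace V]
    (ρ : Γ →* (V ≃ₗᵢ[ℂ] V)) (φ : ℍ → V) (hφ : SecB ρ φ) (x : Fin k → V)
    (hx : ∀ i, ∀ z ∈ c i, φ z = x i) :
    ∫ z in F, ∫ w : ℍ, a z w * (inner ℂ (φ z) (φ w)).re =
      ∑ γ ∈ S, ∑ i, ∑ j, (∫ z in c i, ∫ w in c j, a z (γ • w)) *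
        (inner ℂ (x i) (ρ γ (x j))).re := by
  obtain ⟨m, hm⟩ := hφ.bdd
  have hcF : ∀ i, c i ⊆ F := fun i => by
    rw [← hcU]
    exact subset_iUnion c i
  have hcK : ∀ i, c i ⊆ K := fun i => (hcF i).trans hFK
  -- the inner integral
  have hin : ∀ i, ∀ z ∈ c i, ∫ w : ℍ, a z w * (inner ℂ (φ z) (φ w)).re =
      ∑ γ ∈ S, ∑ j, (∫ w in c j, a z (γ • w)) * (inner ℂ (x i) (ρ γ (x j))).re := by
    intro i z hz
    have hzF : z ∈ F := hcF i hz
    have hmeas : StronglyMeasurable fun w => (inner ℂ (φ z) (φ w)).re :=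
      Complex.continuous_re.comp_stronglyMeasurable
        ((stronglyMeasurable_const (b := φ z)).inner hφ.meas)
    have hint : Integrable (fun w => a z w * (inner ℂ (φ z) (φ w)).re) (volume : Measure ℍ) := by
      refine Integrable.mono' ((DSC_csup ha z).norm.mul_const (m * m)) ?_ ?_
      · exact (DSC_csup ha z).aestronglyMeasurable.mul hmeas.aestronglyMeasurable
      · refine Eventually.of_forall fun w => ?_
        rw [norm_mul]
        refine mul_le_mul_of_nonneg_left ?_ (norm_nonneg _)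
        have hm0 : 0 ≤ m := (norm_nonneg _).trans (hm z)
        calc ‖(inner ℂ (φ z) (φ w)).re‖ ≤ ‖inner ℂ (φ z) (φ w)‖ := Complex.abs_re_le_norm _
          _ ≤ ‖φ z‖ * ‖φ w‖ := norm_inner_le_norm _ _
          _ ≤ m * m := mul_le_mul (hm z) (hm w) (norm_nonneg _) hm0
    rw [hfd.integral_eq_tsum'' _ hint]
    have e1 : ∑' γ : Γ, ∫ w in F, a z (γ • w) * (inner ℂ (φ z) (φ (γ • w))).re =
        ∑ γ ∈ S, ∫ w in F, a z (γ • w) * (inner ℂ (φ z) (φ (γ • w))).re := by
      refine tsum_eq_sum fun γ hγ => ?_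
      refine setIntegral_eq_zero_of_forall_eq_zero fun w hw => ?_
      have h0 : a z (γ • w) = 0 := by
        by_contra hne
        exact hγ (hS γ z w hzF hw hne)
      rw [h0, zero_mul]
    rw [e1]
    refine Finset.sum_congr rfl fun γ _ => ?_
    have hcell : ∀ j, EqOn (fun w => a z (γ • w) * (inner ℂ (x i) (ρ γ (x j))).re)
        (fun w => a z (γ • w) * (inner ℂ (φ z) (φ (γ • w))).re) (c j) := by
      intro j w hw
      change _ = a z (γ • w) * (inner ℂ (φ z) (φ (γ • w))).re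
      rw [hφ.eqv, hx i z hz, hx j w hw]
    have hcj : ∀ j, IntegrableOn (fun w => a z (γ • w) * (inner ℂ (x i) (ρ γ (x j))).re) (c j)
        volume := fun j =>
      (TR3_intOn ((DSC_acont ha γ).comp (Continuous.prodMk_right z)) hK (hcK j)).mul_const _
    rw [TR3_split hcm hcU hcd fun j => (hcj j).congr_fun (hcell j) (hcm j)]
    refine Finset.sum_congr rfl fun j _ => ?_
    rw [← setIntegral_congr_fun (hcm j) (hcell j), integral_mul_const]
  have hH : ∀ i j, ∀ γ : Γ, IntegrableOn (fun z => (∫ w in c j, a z (γ • w)) *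
      (inner ℂ (x i) (ρ γ (x j))).re) (c i) volume := fun i j γ =>
    (TR3_int2 (DSC_acont ha γ) hK (hcK i) (hcK j)).mul_const _
  have hHs : ∀ i, IntegrableOn (fun z => ∑ γ ∈ S, ∑ j, (∫ w in c j, a z (γ • w)) *
      (inner ℂ (x i) (ρ γ (x j))).re) (c i) volume := fun i =>
    integrable_finsetSum _ fun γ _ => integrable_finsetSum _ fun j _ => hH i j γ
  have hcongr : ∀ i, EqOn (fun z => ∑ γ ∈ S, ∑ j, (∫ w in c j, a z (γ • w)) *
      (inner ℂ (x i) (ρ γ (x j))).re) (fun z => ∫ w : ℍ, a z w * (inner ℂ (φ z) (φ w)).re) (c i) :=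
    fun i z hz => (hin i z hz).symm
  rw [TR3_split hcm hcU hcd fun i => (hHs i).congr_fun (hcongr i) (hcm i), Finset.sum_comm]
  refine Finset.sum_congr rfl fun i _ => ?_
  rw [← setIntegral_congr_fun (hcm i) (hcongr i),
    integral_finsetSum _ fun γ _ => integrable_finsetSum _ fun j _ => hH i j γ]
  refine Finset.sum_congr rfl fun γ _ => ?_
  rw [integral_finsetSum _ fun j _ => hH i j γ]
  refine Finset.sum_congr rfl fun j _ => ?_
  rw [integral_mul_const]

/-- the form of the matrix -/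
private theorem DSC_rep (S : Finset Γ) (c : Fin k → Set ℍ)
    {V : Type} [NormedAddCommGroup V] [InnerProductSpace ℂ V]
    (ρ : Γ →* (V ≃ₗᵢ[ℂ] V)) (v : Fin k → V) :
    (∑ i, ∑ j, inner ℂ (v i) (rep ρ (mI a S c i j) (v j))).re =
      ∑ γ ∈ S, ∑ i, ∑ j, ((Real.sqrt (volume (c i)).toReal)⁻¹ *
        (Real.sqrt (volume (c j)).toReal)⁻¹ * ∫ z in c i, ∫ w in c j, a z (γ • w)) *
        (inner ℂ (v i) (ρ γ (v j))).re := by
  rw [Complex.re_sum, Finset.sum_comm]
  refine Finset.sum_congr rfl fun i _ => ?_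
  rw [Complex.re_sum, Finset.sum_comm]
  refine Finset.sum_congr rfl fun j _ => ?_
  unfold mI
  rw [TR3_rep, inner_sum, Complex.re_sum]
  refine Finset.sum_congr rfl fun γ _ => ?_
  rw [inner_smul_right, Complex.re_ofReal_mul]

private theorem DSC_zero (S : Finset Γ)
    (hS : ∀ (γ : Γ) (z w : ℍ), z ∈ F → w ∈ F → a z (γ • w) ≠ 0 → γ ∈ S)
    (hcF : ∀ i, c i ⊆ F) {γ : Γ} (hγ : γ ∉ S) (i j : Fin k) :
    ∫ z in c i, ∫ w in c j, a z (γ • w) = 0 := by
  refine setIntegral_eq_zero_of_forall_eq_zero fun z hz => ?_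
  refine setIntegral_eq_zero_of_forall_eq_zero fun w hw => ?_
  by_contra hne
  exact hγ (hS γ z w (hcF i hz) (hcF j hw) hne)

private theorem DSC_coeff (S : Finset Γ)
    (hS : ∀ (γ : Γ) (z w : ℍ), z ∈ F → w ∈ F → a z (γ • w) ≠ 0 → γ ∈ S)
    (hcF : ∀ i, c i ⊆ F) (i j : Fin k) (γ : Γ) :
    (mI a S c i j).coeff γ = (((Real.sqrt (volume (c i)).toReal)⁻¹ *
        (Real.sqrt (volume (c j)).toReal)⁻¹ * ∫ z in c i, ∫ w in c j, a z (γ • w) : ℝ) : ℂ) := by
  classical
  unfold mI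
  rw [TR3_coeff]
  by_cases h : γ ∈ S
  · rw [if_pos h]
  · rw [if_neg h, DSC_zero S hS hcF h, mul_zero, Complex.ofReal_zero]

private theorem DSC_swap (ha : PKer Γ a) {K : Set ℍ} (hK : IsCompact K) (hcK : ∀ i, c i ⊆ K)
    (γ : Γ) (i j : Fin k) :
    ∫ z in c i, ∫ w in c j, a z (γ⁻¹ • w) = ∫ z in c j, ∫ w in c i, a z (γ • w) := by
  have h1 : IntegrableOn (Function.uncurry fun z w : ℍ => a z (γ⁻¹ • w)) (K ×ˢ K)
      ((volume : Measure ℍ).prod (volume : Measure ℍ)) :=
    (DSC_acont ha γ⁻¹).continuousOn.integrableOn_compact (hK.prod hK)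
  have h2 : IntegrableOn (Function.uncurry fun z w : ℍ => a z (γ⁻¹ • w)) (c i ×ˢ c j)
      ((volume : Measure ℍ).prod (volume : Measure ℍ)) :=
    h1.mono_set (prod_mono (hcK i) (hcK j))
  rw [IntegrableOn, ← Measure.prod_restrict] at h2
  rw [integral_integral_swap h2]
  have e : ∀ z w : ℍ, a z (γ⁻¹ • w) = a w (γ • z) := by
    intro z w
    rw [← ha.inv γ z (γ⁻¹ • w), smul_inv_smul, ha.symm]
  simp_rw [e]

private theorem DSC_trans (hinv : SMulInvariantMeasure Γ ℍ (volume : Measure ℍ)) (γ : Γ)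
    (s : Set ℍ) (H : ℍ → ℝ) :
    ∫ z in (fun z : ℍ => γ • z) ⁻¹' s, H z = ∫ z in s, H (γ⁻¹ • z) := by
  have : MeasurableConstSMul Γ ℍ := ⟨fun γ => (TR3_smul_cont γ).measurable⟩
  have h := (measurePreserving_smul γ (volume : Measure ℍ)).setIntegral_preimage_emb
    (measurableEmbedding_const_smul γ) (fun z => H (γ⁻¹ • z)) s
  rw [← h]
  refine integral_congr_ae (Eventually.of_forall fun z => ?_)
  change H z = H (γ⁻¹ • γ • z)
  rw [inv_smul_smul]

/-- the form of a compactly supported function constant on the translates of the cells -/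
private theorem DSC_two (hinv : SMulInvariantMeasure Γ ℍ (volume : Measure ℍ)) (ha : PKer Γ a)
    {K : Set ℍ} (hK : IsCompact K) (hcK : ∀ i, c i ⊆ K) (hcm : ∀ i, MeasurableSet (c i))
    {idx : ℍ → Γ × Fin k} (h1 : ∀ z, (idx z).1 • z ∈ c (idx z).2)
    (h2 : ∀ (z : ℍ) (p : Γ × Fin k), p.1 • z ∈ c p.2 → idx z = p)
    (T : Finset (Γ × Fin k)) (y : Γ × Fin k → ℝ) (hy : ∀ p, p ∉ T → y p = 0) :
    ∫ z : ℍ, ∫ w : ℍ, a z w * (y (idx z) * y (idx w)) =
      ∑ p ∈ T, ∑ q ∈ T, y p * y q *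
        ∫ z in c p.2, ∫ w in c q.2, a z ((p.1 * q.1⁻¹) • w) := by
  classical
  obtain ⟨A, hA⟩ : ∃ A : Γ × Fin k → Set ℍ, A = fun p => (fun z : ℍ => p.1 • z) ⁻¹' c p.2 := ⟨_, rfl⟩
  have hAm : ∀ p, MeasurableSet (A p) := by
    intro p
    rw [hA]
    exact (TR3_smul_cont p.1).measurable (hcm p.2)
  have hAc : ∀ p, A p ⊆ (fun z : ℍ => p.1⁻¹ • z) '' K := by
    intro p z hz
    rw [hA] at hz
    exact ⟨p.1 • z, hcK p.2 hz, inv_smul_smul p.1 z⟩
  have hKc : ∀ p : Γ × Fin k, IsCompact ((fun z : ℍ => p.1⁻¹ • z) '' K) := fun p =>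
    hK.image (TR3_smul_cont p.1⁻¹)
  have hexp : ∀ z : ℍ, y (idx z) = ∑ p ∈ T, (A p).indicator (fun _ => y p) z := by
    intro z
    have h3 : ∀ p ∈ T, (A p).indicator (fun _ => y p) z = if idx z = p then y p else 0 := by
      intro p _
      by_cases h : idx z = p
      · rw [if_pos h, indicator_of_mem]
        rw [hA, ← h]
        exact h1 z
      · rw [if_neg h, indicator_of_notMem]
        intro hz
        rw [hA] at hz
        exact h (h2 z p hz)
    rw [Finset.sum_congr rfl h3, Finset.sum_ite_eq]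
    by_cases h : idx z ∈ T
    · rw [if_pos h]
    · rw [if_neg h, hy _ h]
  have hin : ∀ z : ℍ, ∫ w : ℍ, a z w * (y (idx z) * y (idx w)) =
      ∑ q ∈ T, y (idx z) * y q * ∫ w in A q, a z w := by
    intro z
    have h3 : ∀ w : ℍ, a z w * (y (idx z) * y (idx w)) =
        ∑ q ∈ T, (A q).indicator (fun w => y (idx z) * y q * a z w) w := by
      intro w
      rw [hexp w, Finset.mul_sum, Finset.mul_sum]
      refine Finset.sum_congr rfl fun q _ => ?_
      by_cases h : w ∈ A q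
      · rw [indicator_of_mem h, indicator_of_mem h]
        ring
      · rw [indicator_of_notMem h, indicator_of_notMem h]
        ring
    simp_rw [h3]
    rw [integral_finsetSum _ fun q _ => ((DSC_csup ha z).const_mul _).indicator (hAm q)]
    refine Finset.sum_congr rfl fun q _ => ?_
    rw [integral_indicator (hAm q), integral_const_mul]
  simp_rw [hin]
  have h4 : ∀ z : ℍ, ∑ q ∈ T, y (idx z) * y q * ∫ w in A q, a z w =
      ∑ q ∈ T, ∑ p ∈ T, (A p).indicator (fun z => y p * y q * ∫ w in A q, a z w) z := by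
    intro z
    refine Finset.sum_congr rfl fun q _ => ?_
    rw [hexp z, Finset.sum_mul, Finset.sum_mul]
    refine Finset.sum_congr rfl fun p _ => ?_
    by_cases h : z ∈ A p
    · rw [indicator_of_mem h, indicator_of_mem h]
    · rw [indicator_of_notMem h, indicator_of_notMem h]
      ring
  simp_rw [h4]
  have hint : ∀ p q : Γ × Fin k,
      Integrable ((A p).indicator fun z => y p * y q * ∫ w in A q, a z w) (volume : Measure ℍ) := by
    intro p q
    rw [integrable_indicator_iff (hAm p)]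
    refine Integrable.const_mul ?_ _
    refine TR3_int2 (b := a) ha.cont ((hKc p).union (hKc q)) ?_ ?_
    · exact (hAc p).trans subset_union_left
    · exact (hAc q).trans subset_union_right
  rw [integral_finsetSum _ fun q _ => integrable_finsetSum _ fun p _ => hint p q,
    Finset.sum_comm]
  have h5 : ∀ q ∈ T, ∫ z : ℍ, ∑ p ∈ T, (A p).indicator (fun z => y p * y q * ∫ w in A q, a z w) z =
      ∑ p ∈ T, y p * y q * ∫ z in c p.2, ∫ w in c q.2, a z ((p.1 * q.1⁻¹) • w) := by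
    intro q _
    rw [integral_finsetSum _ fun p _ => hint p q]
    refine Finset.sum_congr rfl fun p _ => ?_
    rw [integral_indicator (hAm p), integral_const_mul, hA]
    congr 1
    change ∫ z in (fun z : ℍ => p.1 • z) ⁻¹' c p.2, ∫ w in (fun w : ℍ => q.1 • w) ⁻¹' c q.2, a z w = _
    rw [DSC_trans hinv p.1 (c p.2) (fun z => ∫ w in (fun w : ℍ => q.1 • w) ⁻¹' c q.2, a z w)]
    refine integral_congr_ae (Eventually.of_forall fun z => ?_)
    change ∫ w in (fun w : ℍ => q.1 • w) ⁻¹' c q.2, a (p.1⁻¹ • z) w = _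
    rw [DSC_trans hinv q.1 (c q.2) (fun w => a (p.1⁻¹ • z) w)]
    refine integral_congr_ae (Eventually.of_forall fun w => ?_)
    change a (p.1⁻¹ • z) (q.1⁻¹ • w) = a z ((p.1 * q.1⁻¹) • w)
    rw [← ha.inv p.1 (p.1⁻¹ • z) (q.1⁻¹ • w), smul_inv_smul, mul_smul]
  rw [Finset.sum_congr rfl h5, Finset.sum_comm]

private theorem DSC_norm {K : Set ℍ} (hK : IsCompact K) (hcK : ∀ i, c i ⊆ K)
    (hcm : ∀ i, MeasurableSet (c i)) (hcU : (⋃ i, c i) = F)
    (hcd : ∀ i j, i ≠ j → Disjoint (c i) (c j)) {V : Type} [NormedAddCommGroup V]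
    (φ : ℍ → V) (x : Fin k → V) (hx : ∀ i, ∀ z ∈ c i, φ z = x i) :
    ∫ z in F, ‖φ z‖ ^ 2 = ∑ i, (volume (c i)).toReal * ‖x i‖ ^ 2 := by
  have he : ∀ i, EqOn (fun _ : ℍ => ‖x i‖ ^ 2) (fun z => ‖φ z‖ ^ 2) (c i) := by
    intro i z hz
    change ‖x i‖ ^ 2 = ‖φ z‖ ^ 2
    rw [hx i z hz]
  have hi : ∀ i, IntegrableOn (fun _ : ℍ => ‖x i‖ ^ 2) (c i) volume := fun i =>
    TR3_intOn continuous_const hK (hcK i)
  rw [TR3_split hcm hcU hcd fun i => (hi i).congr_fun (he i) (hcm i)]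
  refine Finset.sum_congr rfl fun i _ => ?_
  rw [← setIntegral_congr_fun (hcm i) (he i), setIntegral_const, smul_eq_mul, Measure.real]

private theorem DSC_inner {V : Type} [NormedAddCommGroup V] [InnerProductSpace ℂ V]
    (ρ : Γ →* (V ≃ₗᵢ[ℂ] V)) (γ : Γ) (r s : ℝ) (x y : V) :
    (inner ℂ ((r : ℂ) • x) (ρ γ ((s : ℂ) • y))).re = r * s * (inner ℂ x (ρ γ y)).re := by
  rw [map_smul, inner_smul_left, inner_smul_right, Complex.conj_ofReal, ← mul_assoc,
    ← Complex.ofReal_mul, Complex.re_ofReal_mul]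

private theorem DSC_ns {V : Type} [NormedAddCommGroup V] [InnerProductSpace ℂ V]
    (r : ℝ) (x : V) : ‖(r : ℂ) • x‖ ^ 2 = r ^ 2 * ‖x‖ ^ 2 := by
  rw [norm_smul, mul_pow, Complex.norm_real, Real.norm_eq_abs, sq_abs]

end form

theorem DSC (_hUTR : UTR_stmt) : DSC_stmt := by
  classical
  intro Γ F a S k c hΓ hF ha hSi hS hcm hcU hcd
  obtain ⟨hct, hfd, -, hlt, -, -⟩ := DOB INV Γ F hΓ hF
  obtain ⟨K, hK, hFK⟩ := hF.rel
  have hinv := INV.2.1 Γ
  have hcF : ∀ i, c i ⊆ F := fun i => by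
    rw [← hcU]
    exact subset_iUnion c i
  have hcK : ∀ i, c i ⊆ K := fun i => (hcF i).trans hFK
  obtain ⟨idx, h1, h2⟩ := DSC_idx hF hcU hcd
  obtain ⟨ν, hν⟩ : ∃ ν : Fin k → ℝ, ν = fun i => (Real.sqrt (volume (c i)).toReal)⁻¹ := ⟨_, rfl⟩
  have hνi : ∀ i, (Real.sqrt (volume (c i)).toReal)⁻¹ = ν i := fun i => by rw [hν]
  have hvol : ∀ i, volume (c i) ≠ ⊤ := fun i =>
    (lt_of_le_of_lt (measure_mono (hcF i)) hlt).ne
  have hcoe := fun i j γ => DSC_coeff (Γ := Γ) S hS hcF i j γ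
  refine ⟨?_, ?_, ?_, ?_⟩
  · -- self-adjoint
    intro i j
    ext γ
    rw [DSC_adj, hcoe, hcoe, DSC_swap ha hK hcK γ i j, Complex.star_def, Complex.conj_ofReal,
      mul_comm (Real.sqrt (volume (c i)).toReal)⁻¹]
  · intro i j γ hγ
    by_contra hcon
    rw [Finsupp.mem_support_iff, hcoe, DSC_zero S hS hcF hcon, mul_zero] at hγ
    exact hγ Complex.ofReal_zero
  · intro V _ _ _ ρ
    refine ⟨?_, ?_⟩
    · intro v
      obtain ⟨φ, hφd⟩ : ∃ φ : ℍ → V, φ = fun z => ρ (idx z).1⁻¹ ((ν (idx z).2 : ℂ) • v (idx z).2) :=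
        ⟨_, rfl⟩
      have hφ : SecB ρ φ := by
        refine ⟨?_, ⟨∑ i, ‖(ν i : ℂ) • v i‖, fun z => ?_⟩, fun γ z => ?_⟩
        · rw [hφd]
          exact DSC_sm h1 h2 hcm fun p : Γ × Fin k => ρ p.1⁻¹ ((ν p.2 : ℂ) • v p.2)
        · rw [hφd]
          change ‖ρ (idx z).1⁻¹ ((ν (idx z).2 : ℂ) • v (idx z).2)‖ ≤ _
          rw [LinearIsometryEquiv.norm_map]
          exact Finset.single_le_sum (f := fun i => ‖(ν i : ℂ) • v i‖) (fun i _ => norm_nonneg _)
            (Finset.mem_univ _)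
        · rw [hφd]
          change ρ (idx (γ • z)).1⁻¹ ((ν (idx (γ • z)).2 : ℂ) • v (idx (γ • z)).2) =
            ρ γ (ρ (idx z).1⁻¹ ((ν (idx z).2 : ℂ) • v (idx z).2))
          rw [DSC_idx_smul h1 h2, mul_inv_rev, inv_inv, map_mul]
          rfl
      have hx : ∀ i, ∀ z ∈ c i, φ z = (ν i : ℂ) • v i := by
        intro i z hz
        rw [hφd]
        change ρ (idx z).1⁻¹ ((ν (idx z).2 : ℂ) • v (idx z).2) = _
        rw [DSC_idx_one h2 hz]
        change ρ (1 : Γ)⁻¹ ((ν i : ℂ) • v i) = _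
        rw [inv_one, map_one]
        rfl
      refine ⟨φ, hφ, ?_, ?_⟩
      · rw [DSC_norm hK hcK hcm hcU hcd φ (fun i => (ν i : ℂ) • v i) hx]
        refine Finset.sum_le_sum fun i _ => ?_
        rw [DSC_ns, ← mul_assoc]
        refine mul_le_of_le_one_left (sq_nonneg _) ?_
        rw [hν]
        change (volume (c i)).toReal * ((Real.sqrt (volume (c i)).toReal)⁻¹) ^ 2 ≤ 1
        rw [inv_pow, Real.sq_sqrt ENNReal.toReal_nonneg]
        exact mul_inv_le_one
      · rw [DSC_form hfd hct hinv ha S hS hK hFK hcm hcU hcd ρ φ hφ (fun i => (ν i : ℂ) • v i) hx,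
          DSC_rep]
        refine Finset.sum_congr rfl fun γ _ => Finset.sum_congr rfl fun i _ =>
          Finset.sum_congr rfl fun j _ => ?_
        rw [DSC_inner, hνi, hνi]
        ring
    · intro φ hφ hconst
      obtain ⟨x, hx⟩ : ∃ x : Fin k → V, ∀ i, ∀ z ∈ c i, φ z = x i := by
        refine ⟨fun i => if h : (c i).Nonempty then φ h.some else 0, fun i z hz => ?_⟩
        have h : (c i).Nonempty := ⟨z, hz⟩
        change φ z = if h : (c i).Nonempty then φ h.some else 0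
        rw [dif_pos h]
        exact hconst i z hz _ h.some_mem
      refine ⟨fun i => ((Real.sqrt (volume (c i)).toReal : ℝ) : ℂ) • x i, ?_, ?_⟩
      · rw [DSC_norm hK hcK hcm hcU hcd φ x hx]
        refine Finset.sum_congr rfl fun i _ => ?_
        rw [DSC_ns, Real.sq_sqrt ENNReal.toReal_nonneg]
      · rw [DSC_form hfd hct hinv ha S hS hK hFK hcm hcU hcd ρ φ hφ x hx, DSC_rep]
        refine Finset.sum_congr rfl fun γ _ => Finset.sum_congr rfl fun i _ =>
          Finset.sum_congr rfl fun j _ => ?_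
        rw [DSC_inner]
        by_cases hi : (volume (c i)).toReal = 0
        · have h0 : volume (c i) = 0 := by
            rcases (ENNReal.toReal_eq_zero_iff _).1 hi with h | h
            · exact h
            · exact absurd h (hvol i)
          have hJ : ∫ z in c i, ∫ w in c j, a z (γ • w) = 0 := by
            rw [Measure.restrict_eq_zero.2 h0]
            exact integral_zero_measure _
          rw [hJ]
          ring
        · by_cases hj : (volume (c j)).toReal = 0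
          · have h0 : volume (c j) = 0 := by
              rcases (ENNReal.toReal_eq_zero_iff _).1 hj with h | h
              · exact h
              · exact absurd h (hvol j)
            have hJ : ∫ z in c i, ∫ w in c j, a z (γ • w) = 0 := by
              rw [Measure.restrict_eq_zero.2 h0]
              simp
            rw [hJ]
            ring
          · have hi' : Real.sqrt (volume (c i)).toReal ≠ 0 := by
              rw [Real.sqrt_ne_zero']
              exact lt_of_le_of_ne ENNReal.toReal_nonneg (Ne.symm hi)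
            have hj' : Real.sqrt (volume (c j)).toReal ≠ 0 := by
              rw [Real.sqrt_ne_zero']
              exact lt_of_le_of_ne ENNReal.toReal_nonneg (Ne.symm hj)
            field_simp
  · intro e
    obtain ⟨T, hT⟩ : ∃ T : Finset Γ, T = Finset.univ.biUnion fun i : Fin k => (e i).coeff.support :=
      ⟨_, rfl⟩
    have hTi : ∀ i, (e i).coeff.support ⊆ T := fun i => by
      rw [hT]
      exact Finset.subset_biUnion_of_mem (fun i : Fin k => (e i).coeff.support) (Finset.mem_univ i)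
    obtain ⟨T', hT'⟩ : ∃ T' : Finset (Γ × Fin k), T' = T ×ˢ (Finset.univ : Finset (Fin k)) :=
      ⟨_, rfl⟩
    have hoff : ∀ p : Γ × Fin k, p ∉ T' → (e p.2).coeff p.1 = 0 := by
      intro p hp
      by_contra hne
      apply hp
      rw [hT', Finset.mem_product]
      exact ⟨hTi p.2 (Finsupp.mem_support_iff.2 hne), Finset.mem_univ _⟩
    obtain ⟨y₁, hy₁⟩ : ∃ y : Γ × Fin k → ℝ, y = fun p => ν p.2 * ((e p.2).coeff p.1).re := ⟨_, rfl⟩
    obtain ⟨y₂, hy₂⟩ : ∃ y : Γ × Fin k → ℝ, y = fun p => ν p.2 * ((e p.2).coeff p.1).im := ⟨_, rfl⟩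
    have hy₁0 : ∀ p, p ∉ T' → y₁ p = 0 := by
      intro p hp
      rw [hy₁]
      change ν p.2 * ((e p.2).coeff p.1).re = 0
      rw [hoff p hp, Complex.zero_re, mul_zero]
    have hy₂0 : ∀ p, p ∉ T' → y₂ p = 0 := by
      intro p hp
      rw [hy₂]
      change ν p.2 * ((e p.2).coeff p.1).im = 0
      rw [hoff p hp, Complex.zero_im, mul_zero]
    have hcs : ∀ y : Γ × Fin k → ℝ, (∀ p, p ∉ T' → y p = 0) →
        HasCompactSupport fun z => y (idx z) := by
      intro y hy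
      have hcomp : IsCompact (⋃ γ ∈ (T : Set Γ), (fun z : ℍ => γ⁻¹ • z) '' K) :=
        T.finite_toSet.isCompact_biUnion fun γ _ => hK.image (TR3_smul_cont γ⁻¹)
      refine HasCompactSupport.intro hcomp fun z hz => ?_
      refine hy _ fun hmem => hz ?_
      rw [hT', Finset.mem_product] at hmem
      refine mem_biUnion (Finset.mem_coe.2 hmem.1) ?_
      exact ⟨(idx z).1 • z, hcK _ (h1 z), inv_smul_smul _ z⟩
    have hbd : ∀ y : Γ × Fin k → ℝ, (∀ p, p ∉ T' → y p = 0) → ∀ z, |y (idx z)| ≤ ∑ p ∈ T', |y p| := by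
      intro y hy z
      by_cases h : idx z ∈ T'
      · exact Finset.single_le_sum (f := fun p => |y p|) (fun i _ => abs_nonneg _) h
      · rw [hy _ h, abs_zero]
        exact Finset.sum_nonneg fun _ _ => abs_nonneg _
    refine ⟨fun z => y₁ (idx z), fun z => y₂ (idx z), DSC_sm h1 h2 hcm y₁, DSC_sm h1 h2 hcm y₂,
      ⟨max (∑ p ∈ T', |y₁ p|) (∑ p ∈ T', |y₂ p|), fun z =>
        ⟨(hbd y₁ hy₁0 z).trans (le_max_left _ _), (hbd y₂ hy₂0 z).trans (le_max_right _ _)⟩⟩,
      hcs y₁ hy₁0, hcs y₂ hy₂0, ?_⟩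
    rw [DSC_two hinv ha hK hcK hcm h1 h2 T' y₁ hy₁0, DSC_two hinv ha hK hcK hcm h1 h2 T' y₂ hy₂0]
    have hip : ∀ i j, ip (e i) (mI a S c i j * e j) =
        ∑ γ ∈ T, ∑ δ ∈ T, star ((e i).coeff γ) * (e j).coeff δ *
          ((ν i * ν j * ∫ z in c i, ∫ w in c j, a z ((γ * δ⁻¹) • w) : ℝ) : ℂ) := by
      intro i j
      rw [ip, Finset.sum_subset (hTi i)]
      · refine Finset.sum_congr rfl fun γ _ => ?_
        rw [MonoidAlgebra.coeff_mul_apply_right, Finsupp.sum, Finset.sum_subset (hTi j),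
          Finset.mul_sum]
        · refine Finset.sum_congr rfl fun δ _ => ?_
          rw [hcoe, hνi, hνi]
          ring
        · intro δ _ hδ
          rw [Finsupp.notMem_support_iff.mp hδ, mul_zero]
      · intro γ _ hγ
        rw [Finsupp.notMem_support_iff.mp hγ, star_zero, zero_mul]
    have hre : ∀ i j, (ip (e i) (mI a S c i j * e j)).re =
        ∑ γ ∈ T, ∑ δ ∈ T, (y₁ (γ, i) * y₁ (δ, j) *
            (∫ z in c i, ∫ w in c j, a z ((γ * δ⁻¹) • w)) + y₂ (γ, i) * y₂ (δ, j) *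
            ∫ z in c i, ∫ w in c j, a z ((γ * δ⁻¹) • w)) := by
      intro i j
      rw [hip, Complex.re_sum]
      refine Finset.sum_congr rfl fun γ _ => ?_
      rw [Complex.re_sum]
      refine Finset.sum_congr rfl fun δ _ => ?_
      rw [Complex.re_mul_ofReal, Complex.star_def, Complex.mul_re, Complex.conj_re,
        Complex.conj_im, hy₁, hy₂]
      ring
    have hsum : ∀ y : Γ × Fin k → ℝ, ∑ p ∈ T', ∑ q ∈ T', y p * y q *
        ∫ z in c p.2, ∫ w in c q.2, a z ((p.1 * q.1⁻¹) • w) =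
        ∑ i, ∑ j, ∑ γ ∈ T, ∑ δ ∈ T, y (γ, i) * y (δ, j) *
          ∫ z in c i, ∫ w in c j, a z ((γ * δ⁻¹) • w) := by
      intro y
      have e1 : ∀ i : Fin k, ∑ j, ∑ γ ∈ T, ∑ δ ∈ T, y (γ, i) * y (δ, j) *
          (∫ z in c i, ∫ w in c j, a z ((γ * δ⁻¹) • w)) =
          ∑ γ ∈ T, ∑ j, ∑ δ ∈ T, y (γ, i) * y (δ, j) *
          (∫ z in c i, ∫ w in c j, a z ((γ * δ⁻¹) • w)) := fun i => Finset.sum_comm
      have e2 : ∀ (i : Fin k) (γ : Γ), ∑ j, ∑ δ ∈ T, y (γ, i) * y (δ, j) *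
          (∫ z in c i, ∫ w in c j, a z ((γ * δ⁻¹) • w)) =
          ∑ δ ∈ T, ∑ j, y (γ, i) * y (δ, j) *
          (∫ z in c i, ∫ w in c j, a z ((γ * δ⁻¹) • w)) := fun i γ => Finset.sum_comm
      simp_rw [e1, e2]
      rw [hT', Finset.sum_product, Finset.sum_comm]
      refine Finset.sum_congr rfl fun i _ => Finset.sum_congr rfl fun γ _ => ?_
      rw [Finset.sum_product]
    rw [hsum, hsum, Complex.re_sum, ← Finset.sum_add_distrib]
    refine Finset.sum_congr rfl fun i _ => ?_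
    rw [Complex.re_sum, ← Finset.sum_add_distrib]
    refine Finset.sum_congr rfl fun j _ => ?_
    rw [hre, ← Finset.sum_add_distrib]
    refine Finset.sum_congr rfl fun γ _ => ?_
    rw [← Finset.sum_add_distrib]

end Pool.Agent.QX
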